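import Pool.Agent.W146.VC.Stm

/-!
# The base of the stepping up induction
-/

set_option autoImplicit false

namespace Pool.Agent.W177.VC

open Finset Pool.Agent.W146.VC
open Pool.Agent.H526R2.Delta (hd hd_spec isDelta_hd hd_lt)

lemma sort_eq {l : List ℕ} (h : l.Pairwise (· < ·)) : l.toFinset.sort (· ≤ ·) = l := by
  have hn : l.Nodup := h.imp (fun h => h.ne)
  rw [List.toFinset_sort _ hn]
  exact h.imp (fun h => h.le)

/-- the underlying function -/
def GG (w : List ℕ) : Bool :=
  match w with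
    | a :: b :: _ => decide (a < b)
    | _ => false

lemma base_eq (e : Finset ℕ) : base e = GG (dl (e.sort (· ≤ ·))) := rfl

lemma base_triple {x y z : ℕ} (hxy : x < y) (hyz : y < z) :
    base {x, y, z} = decide (hd x y < hd y z) := by
  have h1 : ({x, y, z} : Finset ℕ) = [x, y, z].toFinset := by
    ext w; simp
  have h2 : ([x, y, z] : List ℕ).Pairwise (· < ·) := by
    simp; omega
  rw [base_eq, h1, sort_eq h2]
  rfl

theorem part1 (n : ℕ) (S : Finset ℕ) (hS : S ⊆ range (2 ^ n)) (hc : S.card = n + 2) :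
    ¬ Homog 3 base S := by
  rintro ⟨b, hb⟩
  let x : ℕ → ℕ := fun i => if h : i < n + 2 then S.orderEmbOfFin hc ⟨i, h⟩ else 0
  have hxS : ∀ i, i < n + 2 → x i ∈ S := by
    intro i hi
    change (if h : i < n + 2 then S.orderEmbOfFin hc ⟨i, h⟩ else 0) ∈ S
    rw [dif_pos hi]
    exact S.orderEmbOfFin_mem hc _
  have hlt : ∀ i j, i < j → j < n + 2 → x i < x j := by
    intro i j hij hj
    change (if h : i < n + 2 then S.orderEmbOfFin hc ⟨i, h⟩ else 0) <
      (if h : j < n + 2 then S.orderEmbOfFin hc ⟨j, h⟩ else 0)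
    rw [dif_pos (hij.trans hj), dif_pos hj]
    exact (S.orderEmbOfFin hc).strictMono (by simpa using hij)
  let δ : ℕ → ℕ := fun i => hd (x i) (x (i + 1))
  have hδ : ∀ i, i < n + 1 → δ i < n := by
    intro i hi
    refine hd_lt (hlt i (i + 1) (by omega) (by omega)) ?_
    have := hS (hxS (i + 1) (by omega))
    rwa [mem_range] at this
  have hcol : ∀ i, i < n → decide (δ i < δ (i + 1)) = b := by
    intro i hi
    have h1 := hlt i (i + 1) (by omega) (by omega)
    have h2 := hlt (i + 1) (i + 2) (by omega) (by omega)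
    have h3 := hb {x i, x (i + 1), x (i + 2)} ?_ ?_
    · rw [base_triple h1 h2] at h3
      exact h3
    · intro w hw
      simp only [mem_insert, mem_singleton] at hw
      rcases hw with rfl | rfl | rfl
      · exact hxS _ (by omega)
      · exact hxS _ (by omega)
      · exact hxS _ (by omega)
    · rw [card_insert_of_notMem, card_insert_of_notMem, card_singleton]
      · simp; omega
      · simp; omega
  have hne : ∀ i, i < n → δ i ≠ δ (i + 1) := by
    intro i hi
    exact (isDelta_hd Set.univ (x i) trivial (x (i + 1)) trivial (x (i + 2)) trivial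
      (hlt i (i + 1) (by omega) (by omega)) (hlt (i + 1) (i + 2) (by omega) (by omega))).1
  cases b with
  | true =>
    have h1 : ∀ i, i ≤ n → i ≤ δ i := by
      intro i
      induction i with
      | zero => intro _; omega
      | succ i ih =>
        intro hi
        have h2 := ih (by omega)
        have h3 := hcol i (by omega)
        rw [decide_eq_true_eq] at h3
        omega
    have h2 := h1 n le_rfl
    have h3 := hδ n (by omega)
    omega
  | false =>
    have h1 : ∀ i, i ≤ n → δ i + i ≤ δ 0 := by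
      intro i
      induction i with
      | zero => intro _; omega
      | succ i ih =>
        intro hi
        have h2 := ih (by omega)
        have h3 := hcol i (by omega)
        have h4 := hne i (by omega)
        rw [decide_eq_false_iff_not] at h3
        omega
    have h2 := h1 n le_rfl
    have h3 := hδ 0 (by omega)
    omega

lemma sort_insert {e : Finset ℕ} {z : ℕ} (hz : z ∉ e) :
    (insert z e).sort (· ≤ ·) = (e.sort (· ≤ ·)).orderedInsert (· ≤ ·) z := by
  have h1 : ((e.sort (· ≤ ·)).orderedInsert (· ≤ ·) z).toFinset = insert z e := by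
    ext w
    simp [List.mem_orderedInsert]
  have hn : ((e.sort (· ≤ ·)).orderedInsert (· ≤ ·) z).Nodup := by
    rw [(List.perm_orderedInsert (· ≤ ·) z _).nodup_iff, List.nodup_cons]
    exact ⟨by simpa using hz, e.sort_nodup _⟩
  rw [← h1, List.toFinset_sort _ hn]
  exact (e.pairwise_sort _).orderedInsert z _

theorem t_BASE : Pool.Agent.W146.VC.S_BASE := by
  refine ⟨fun n S hS hc => part1 n S hS hc, ?_⟩
  intro hbool hpull hins
  obtain ⟨b1, b2, b3, b4, b5, b6, b7, b8⟩ := id hbool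
  obtain ⟨D', hD'⟩ := hins hbool hpull 2 1
  refine ⟨D', ?_⟩
  let X : Set (List ℕ × (List ℕ → Bool)) :=
    {p | ∃ e : Finset ℕ, e.card = 2 ∧ p = (e.sort (· ≤ ·), GG)}
  have h1 : ∀ p ∈ X, p.1.Pairwise (· < ·) ∧ p.1.length = 2 := by
    rintro _ ⟨e, he, rfl⟩
    refine ⟨?_, ?_⟩
    · exact e.sortedLT_sort.pairwise
    · rw [Finset.length_sort, he]
  have hl : ∀ e : Finset ℕ, e.card = 2 → ∃ a, dl (e.sort (· ≤ ·)) = [a] := by
    intro e he
    have h2 : (e.sort (· ≤ ·)).length = 2 := by rw [Finset.length_sort, he]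
    rw [List.length_eq_two] at h2
    obtain ⟨x, y, hxy⟩ := h2
    rw [hxy]
    exact ⟨hd x y, rfl⟩
  have h2 : ∀ i < 2, Tr {H : Set ℕ | ∃ p ∈ X, H = {h | p.2 ((dl p.1).insertIdx i h) = true}} 1 := by
    intro i hi
    have hi' : i = 0 ∨ i = 1 := by omega
    rcases hi' with rfl | rfl
    · refine b5 ℕ _ {C : Set ℕ | ∃ x, C = Set.Iio x} 1 1 ?_ le_rfl b6
      rintro _ ⟨_, ⟨e, he, rfl⟩, rfl⟩
      obtain ⟨a, ha⟩ := hl e he
      refine ⟨a, ?_⟩
      ext h
      change GG ((dl (e.sort (· ≤ ·))).insertIdx 0 h) = true ↔ h < a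
      rw [ha]
      simp [GG]
    · refine b5 ℕ _ {C : Set ℕ | ∃ A ∈ {C : Set ℕ | ∃ x, C = Set.Iio x}, C = Aᶜ} 1 1 ?_ le_rfl
        (b3 ℕ _ 1 b6)
      rintro _ ⟨_, ⟨e, he, rfl⟩, rfl⟩
      obtain ⟨a, ha⟩ := hl e he
      refine ⟨Set.Iio (a + 1), ⟨a + 1, rfl⟩, ?_⟩
      ext h
      change GG ((dl (e.sort (· ≤ ·))).insertIdx 1 h) = true ↔ ¬ (h < a + 1)
      rw [ha]
      simp [GG]
  refine b5 ℕ _ _ D' D' ?_ le_rfl (hD' X h1 h2)
  rintro _ ⟨e, he, rfl⟩
  refine ⟨(e.sort (· ≤ ·), GG), ⟨e, by omega, rfl⟩, ?_⟩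
  ext z
  change (z ∉ e ∧ base (insert z e) = true) ↔ (z ∉ e.sort (· ≤ ·) ∧
    GG (dl ((e.sort (· ≤ ·)).orderedInsert (· ≤ ·) z)) = true)
  rw [Finset.mem_sort]
  constructor
  · rintro ⟨hz, h⟩
    rw [base_eq, sort_insert hz] at h
    exact ⟨hz, h⟩
  · rintro ⟨hz, h⟩
    rw [base_eq, sort_insert hz]
    exact ⟨hz, h⟩

end Pool.Agent.W177.VC
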