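import Pool.Agent.W823.QT.Stm

/-!
# SUPA_T: measurability, finiteness and supermultiplicativity
-/

set_option autoImplicit false

namespace Pool.Agent.W177.QTSUPA

open MeasureTheory ProbabilityTheory Filter Topology Pool.Agent.W845.Traps Pool.Agent.W823.QT
open scoped ENNReal NNReal

theorem V_loc {d : ℕ} {η : ℕ → (ℕ → Fin d → ℤ) → ℝ≥0∞} (hL : Loc η) (n : ℕ)
    (a b : ℕ → Fin d → ℤ) (h : ∀ i < n, a i = b i) : V η n a = V η n b := by
  unfold V
  refine Finset.prod_congr rfl fun e he => ?_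
  congr 1
  unfold aw
  apply hL
  intro k hk
  unfold pos
  refine Finset.sum_congr rfl fun i hi => ?_
  unfold sh
  apply h
  rw [Finset.mem_range] at hi
  unfold arcs at he
  rw [Finset.mem_filter, Finset.mem_product, Finset.mem_range, Finset.mem_range] at he
  omega

theorem one_le_V {d : ℕ} (η : ℕ → (ℕ → Fin d → ℤ) → ℝ≥0∞) (n : ℕ) (a : ℕ → Fin d → ℤ) :
    1 ≤ V η n a := by
  unfold V
  exact Finset.one_le_prod' fun e _ => le_self_add

theorem aw_shift {d : ℕ} (η : ℕ → (ℕ → Fin d → ℤ) → ℝ≥0∞) (i : ℕ) (a : ℕ → Fin d → ℤ)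
    (e : ℕ × ℕ) : aw η a (e.1 + i, e.2 + i) = aw η (sh i a) e := by
  unfold aw
  have e1 : (e.2 + i) - (e.1 + i) = e.2 - e.1 := by omega
  have e2 : sh (e.1 + i) a = sh e.1 (sh i a) := by
    funext k
    unfold sh
    congr 1
    omega
  simp only [e1, e2]

theorem V_mul_le (h3 : SPL_T) {d : ℕ} (η : ℕ → (ℕ → Fin d → ℤ) → ℝ≥0∞) (i j : ℕ)
    (a : ℕ → Fin d → ℤ) : V η i a * V η j (sh i a) ≤ V η (i + j) a := by
  have h := h3 (aw η a) (i + j) i (Nat.le_add_right _ _)
  have e0 : i + j - i = j := by omega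
  rw [e0] at h
  have e1 : ∏ e ∈ arcs j, (1 + aw η a (e.1 + i, e.2 + i)) = V η j (sh i a) := by
    unfold V
    exact Finset.prod_congr rfl fun e _ => by rw [aw_shift]
  rw [e1] at h
  have e2 : V η (i + j) a = ∏ e ∈ arcs (i + j), (1 + aw η a e) := rfl
  rw [e2, h]
  exact le_mul_of_one_le_right zero_le (Finset.one_le_prod' fun e _ => le_self_add)

theorem main (h1 : MEAS_T) (h2 : MARK_T) (h3 : SPL_T) : SUPA_T := by
  intro d q hq η ε hL hε hfin
  have hprob : IsProbabilityMeasure (iid q) := by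
    unfold iid
    infer_instance
  have hmeas : ∀ n, Measurable (V η n) := fun n => h1 d n _ (V_loc hL n)
  refine ⟨hmeas, fun n => ?_, fun n => ?_, fun i j => ?_⟩
  · calc (1 : ℝ≥0∞) = ∫⁻ _, 1 ∂(iid q) := by rw [lintegral_one, measure_univ]
      _ ≤ A q η n := lintegral_mono fun a => one_le_V η n a
  · have hC : ∏ e ∈ arcs n, (1 + ε (e.2 - e.1)) ≠ ∞ :=
      ENNReal.prod_ne_top fun e _ => ENNReal.add_ne_top.2 ⟨ENNReal.one_ne_top, hfin _⟩
    refine ne_top_of_le_ne_top hC ?_
    calc A q η n ≤ ∫⁻ _, ∏ e ∈ arcs n, (1 + ε (e.2 - e.1)) ∂(iid q) :=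
          lintegral_mono fun a => Finset.prod_le_prod' fun e _ => by
            exact add_le_add le_rfl (hε _ _)
      _ = ∏ e ∈ arcs n, (1 + ε (e.2 - e.1)) := by
          rw [lintegral_const, measure_univ, mul_one]
  · have hF : Measurable (Function.uncurry fun a b : ℕ → Fin d → ℤ => V η i a * V η j b) :=
      ((hmeas i).comp measurable_fst).mul ((hmeas j).comp measurable_snd)
    have h := h2 d q i (fun a b => V η i a * V η j b) hF
      (fun a a' b hab => by
        rw [V_loc hL i a a' hab])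
    have e1 : ∫⁻ a, ∫⁻ b, V η i a * V η j b ∂(iid q) ∂(iid q) = A q η i * A q η j := by
      have e2 : ∀ a, ∫⁻ b, V η i a * V η j b ∂(iid q) = V η i a * A q η j := fun a => by
        rw [lintegral_const_mul _ (hmeas j)]
        rfl
      simp_rw [e2]
      rw [lintegral_mul_const _ (hmeas i)]
      rfl
    rw [← e1, ← h]
    exact lintegral_mono fun a => V_mul_le h3 η i j a

end Pool.Agent.W177.QTSUPA
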