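import Pool.Agent.W202.AH.Stm

/-!
AHP-1: the Gaussian pair sum of a dyadic block of zeros of zeta (unconditional).
-/

set_option autoImplicit false

open Finset MeasureTheory Complex

namespace Pool.Agent.W177.AHP1

open H343 H343.ZSide

lemma block (b η : ℝ) (hb : 0 < b) (hη : 0 < η) : ∃ C T0 : ℝ, 0 < C ∧ 10 ≤ T0 ∧
    ∀ V : ℝ, T0 ≤ V → ∃ U1 U2 : ℝ, V ≤ U1 ∧ U1 ≤ V + 1 ∧ 2 * V - 1 ≤ U2 ∧ U2 ≤ 2 * V ∧
      ∀ u : ℝ, 1 / 2 * Real.log V ≤ u → u ≤ 2 * Real.log V →
      (1 / (1 + η)) * ((1 / (2 * Real.pi * b)) *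
        (∫ t in (V + Real.log V)..(2 * V - Real.log V), ‖AAt b (Real.exp u) t‖ ^ 2) - C * V) ≤
      ∫ t in (V + Real.log V)..(2 * V - Real.log V),
        ‖GGb b u t (H370.Zf riemannZeta U1 U2) (fun s => (H370.mult riemannZeta s : ℝ))‖ ^ 2 := by
  obtain ⟨C1, T1, hC1, hT1, hEF⟩ := explicit_formula_zeta H370.good_zeta 2 b (by norm_num) hb
  have hπ := Real.pi_pos
  set sq : ℝ := 1 / Real.sqrt (2 * Real.pi * b) with hsq
  have hsq0 : 0 < sq := by
    have : 0 < Real.sqrt (2 * Real.pi * b) := Real.sqrt_pos.2 (by positivity)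
    positivity
  have hsq2 : sq ^ 2 = 1 / (2 * Real.pi * b) := by
    rw [hsq, div_pow, one_pow, Real.sq_sqrt (by positivity)]
  set C' : ℝ := 1 + C1 + sq * (8 * b) with hC'
  have hC'0 : 0 < C' := by positivity
  refine ⟨(1 + 1 / η) * C' ^ 2, max T1 10, by positivity, le_max_right _ _, ?_⟩
  intro V hV
  have hVT1 : T1 ≤ V := (le_max_left _ _).trans hV
  have hV10 : 10 ≤ V := (le_max_right _ _).trans hV
  have hV0 : 0 < V := by linarith
  have hlogV : 1 ≤ Real.log V := by
    rw [Real.le_log_iff_exp_le hV0]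
    have := Real.exp_one_lt_d9
    linarith
  have hlogV2 : 2 * Real.log V ≤ V := by
    have h1 : Real.log V = 2 * Real.log (Real.sqrt V) := by
      rw [Real.log_sqrt hV0.le]; ring
    have h2 := Real.log_le_sub_one_of_pos (Real.sqrt_pos.2 hV0)
    have h3 : Real.sqrt V * Real.sqrt V = V := Real.mul_self_sqrt hV0.le
    nlinarith [sq_nonneg (Real.sqrt V - 2)]
  obtain ⟨U1, U2, hU1, hU1', hU2, hU2', hef⟩ := hEF V hVT1
  refine ⟨U1, U2, hU1, hU1', hU2, hU2', ?_⟩
  intro u hu1 hu2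
  have hu0 : 0 ≤ u := by linarith
  set Z := H370.Zf riemannZeta U1 U2 with hZ
  set mz' : ℂ → ℝ := fun s => (H370.mult riemannZeta s : ℝ) with hmz
  have hAG : ∀ t : ℝ, AAb b riemannZeta U1 U2 u t = GGb b u t Z mz' := by
    intro t
    unfold AAb GGb
    rw [H370.finsum_Zf H370.good_zeta (by linarith : (1 : ℝ) ≤ U1)]
    refine sum_congr rfl fun s _ => ?_
    simp [hmz]
  have hpoint : ∀ t : ℝ, V + Real.log V ≤ t → t ≤ 2 * V - Real.log V →
      (1 / (1 + η)) * ((1 / (2 * Real.pi * b)) * ‖AAt b (Real.exp u) t‖ ^ 2 -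
        (1 + 1 / η) * C' ^ 2) ≤ ‖GGb b u t Z mz'‖ ^ 2 := by
    intro t ht1 ht2
    have h2 := hef u t hu0 hu2 ht1 ht2
    rw [hAG t] at h2
    set G := GGb b u t Z mz' with hG
    set P := PPb b (fun n => (ArithmeticFunction.vonMangoldt n : ℂ)) u t with hP
    have h3 : ‖((sq : ℝ) : ℂ) * (Real.log V * cexp (I * u * t) * Real.exp (-u ^ 2 / (2 * b)))‖ ≤
        sq * (8 * b) := by
      have e0 : ‖cexp (I * u * t)‖ = 1 := by
        rw [show I * (u : ℂ) * t = ((u * t : ℝ) : ℂ) * I by push_cast; ring,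
          Complex.norm_exp_ofReal_mul_I]
      rw [norm_mul, norm_mul, norm_mul, e0, Complex.norm_real, Complex.norm_real,
        Complex.norm_real, Real.norm_of_nonneg hsq0.le, Real.norm_of_nonneg (by linarith),
        Real.norm_of_nonneg (Real.exp_pos _).le, mul_one]
      apply mul_le_mul_of_nonneg_left _ hsq0.le
      have e1 : Real.exp (-u ^ 2 / (2 * b)) ≤ 8 * b / (Real.log V) ^ 2 := by
        have e2 : (Real.log V) ^ 2 / (8 * b) ≤ u ^ 2 / (2 * b) := by
          rw [div_le_div_iff₀ (by positivity) (by positivity)]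
          have e2' : (Real.log V) ^ 2 ≤ 4 * u ^ 2 := by nlinarith
          have e2'' := mul_le_mul_of_nonneg_right e2' (show 0 ≤ 2 * b by positivity)
          linarith
        have e3 : Real.exp (-u ^ 2 / (2 * b)) ≤ Real.exp (-((Real.log V) ^ 2 / (8 * b))) := by
          apply Real.exp_le_exp.2
          rw [neg_div]
          linarith
        refine e3.trans ?_
        rw [Real.exp_neg, show 8 * b / (Real.log V) ^ 2 = ((Real.log V) ^ 2 / (8 * b))⁻¹ by
          rw [inv_div]]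
        apply inv_anti₀ (by positivity)
        have := Real.add_one_le_exp ((Real.log V) ^ 2 / (8 * b))
        linarith
      calc Real.log V * Real.exp (-u ^ 2 / (2 * b)) ≤ Real.log V * (8 * b / (Real.log V) ^ 2) := by
            gcongr
        _ = 8 * b / Real.log V := by field_simp
        _ ≤ 8 * b := div_le_self (by positivity) hlogV
    have h4 : sq * ‖AAt b (Real.exp u) t‖ ≤ ‖G‖ + C' := by
      have e1 : ((sq : ℝ) : ℂ) * P = ((sq : ℝ) : ℂ) * (Real.log V * cexp (I * u * t) *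
          Real.exp (-u ^ 2 / (2 * b))) - G + (G - ((sq : ℝ) : ℂ) *
          (Real.log V * cexp (I * u * t) * Real.exp (-u ^ 2 / (2 * b)) - P)) := by ring
      have e2 : sq * ‖AAt b (Real.exp u) t‖ = ‖((sq : ℝ) : ℂ) * P‖ := by
        rw [norm_mul, Complex.norm_real, Real.norm_of_nonneg hsq0.le, hP, norm_PPb]
      have e3 : C1 * Real.exp (-u) ≤ C1 := by
        have : Real.exp (-u) ≤ 1 := Real.exp_le_one_iff.2 (by linarith)
        nlinarith
      rw [e2, e1]
      refine (norm_add_le _ _).trans ?_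
      refine (add_le_add (norm_sub_le _ _) le_rfl).trans ?_
      rw [hC']
      linarith
    have hG0 : 0 ≤ ‖G‖ := norm_nonneg _
    have hA0 : 0 ≤ ‖AAt b (Real.exp u) t‖ := norm_nonneg _
    have h5 : (1 / (2 * Real.pi * b)) * ‖AAt b (Real.exp u) t‖ ^ 2 ≤
        (1 + η) * ‖G‖ ^ 2 + (1 + 1 / η) * C' ^ 2 := by
      rw [← hsq2, ← mul_pow]
      calc (sq * ‖AAt b (Real.exp u) t‖) ^ 2 ≤ (‖G‖ + C') ^ 2 := by
            gcongr
        _ ≤ (1 + η) * ‖G‖ ^ 2 + (1 + 1 / η) * C' ^ 2 := by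
            have e4 : (1 + η) * ‖G‖ ^ 2 + (1 + 1 / η) * C' ^ 2 - (‖G‖ + C') ^ 2 =
                (η * ‖G‖ - C') ^ 2 / η := by
              field_simp; ring
            have e5 : 0 ≤ (η * ‖G‖ - C') ^ 2 / η := by positivity
            linarith
    rw [one_div, inv_mul_le_iff₀ (by positivity)]
    linarith
  have hle : V + Real.log V ≤ 2 * V - Real.log V := by linarith
  have hAc : Continuous (fun t => ‖AAt b (Real.exp u) t‖ ^ 2) :=
    ((AAt_cont b (Real.exp u) hb (Real.one_le_exp hu0)).norm).pow 2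
  have hGc : Continuous (fun t => ‖GGb b u t Z mz'‖ ^ 2) :=
    ((GGb_cont b u Z mz').norm).pow 2
  have hint : ∫ t in (V + Real.log V)..(2 * V - Real.log V), (1 / (1 + η)) *
      ((1 / (2 * Real.pi * b)) * ‖AAt b (Real.exp u) t‖ ^ 2 - (1 + 1 / η) * C' ^ 2) ≤
      ∫ t in (V + Real.log V)..(2 * V - Real.log V), ‖GGb b u t Z mz'‖ ^ 2 := by
    apply intervalIntegral.integral_mono_on hle
    · exact (continuous_const.mul ((continuous_const.mul hAc).sub continuous_const)).intervalIntegrable _ _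
    · exact hGc.intervalIntegrable _ _
    · intro t ht
      exact hpoint t ht.1 ht.2
  refine le_trans ?_ hint
  have e8 : ∫ t in (V + Real.log V)..(2 * V - Real.log V),
      ((1 / (2 * Real.pi * b)) * ‖AAt b (Real.exp u) t‖ ^ 2 - (1 + 1 / η) * C' ^ 2) =
      (1 / (2 * Real.pi * b)) *
        (∫ t in (V + Real.log V)..(2 * V - Real.log V), ‖AAt b (Real.exp u) t‖ ^ 2) -
      (2 * V - Real.log V - (V + Real.log V)) * ((1 + 1 / η) * C' ^ 2) := by
    rw [intervalIntegral.integral_sub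
      (f := fun t => (1 / (2 * Real.pi * b)) * ‖AAt b (Real.exp u) t‖ ^ 2)
      (g := fun _ => (1 + 1 / η) * C' ^ 2)
      ((continuous_const.mul hAc).intervalIntegrable _ _) (continuous_const.intervalIntegrable _ _),
      intervalIntegral.integral_const_mul, intervalIntegral.integral_const, smul_eq_mul]
  rw [intervalIntegral.integral_const_mul, e8]
  have h6 : (2 * V - Real.log V - (V + Real.log V)) * ((1 + 1 / η) * C' ^ 2) ≤
      (1 + 1 / η) * C' ^ 2 * V := by
    have : 0 ≤ (1 + 1 / η) * C' ^ 2 := by positivity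
    nlinarith
  have h7 : 0 ≤ 1 / (1 + η) := by positivity
  apply mul_le_mul_of_nonneg_left _ h7
  linarith

theorem main : W202.AH.GaussLower := by
  intro δ hδ hδ1
  obtain ⟨b, hb, hps⟩ := prime_side δ hδ
  obtain ⟨T1, hT1⟩ := hps b hb le_rfl
  obtain ⟨C, T2, hC, hT2, hblk⟩ := block b (δ / 4) hb (by positivity)
  have hπ := Real.pi_pos
  set sbp := Real.sqrt (b / Real.pi) with hsbp
  have hsbp0 : 0 ≤ sbp := Real.sqrt_nonneg _
  have hsb : sbp * Real.sqrt (Real.pi * b) = b := by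
    rw [hsbp, ← Real.sqrt_mul (by positivity)]
    rw [show b / Real.pi * (Real.pi * b) = b ^ 2 by field_simp, Real.sqrt_sq hb.le]
  set K : ℝ := 2 * Real.pi * (C * sbp) with hK
  have hK0 : 0 ≤ K := by positivity
  obtain ⟨T3, hT3⟩ := Filter.eventually_atTop.1
    (Real.tendsto_log_atTop.eventually_ge_atTop (K / δ + 1))
  refine ⟨b, max (max T1 T2) T3, hb, hT2.trans ((le_max_right _ _).trans (le_max_left _ _)), ?_⟩
  intro T hT
  have hTT1 : T1 ≤ T := ((le_max_left _ _).trans (le_max_left _ _)).trans hT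
  have hTT2 : T2 ≤ T := ((le_max_right _ _).trans (le_max_left _ _)).trans hT
  have hL := hT3 T ((le_max_right _ _).trans hT)
  have hT10 : 10 ≤ T := hT2.trans hTT2
  have hT0 : 0 < T := by linarith
  obtain ⟨U1, U2, hU1, hU1', hU2, hU2', hu⟩ := hblk T hTT2
  refine ⟨U1, U2, hU1, hU1', hU2, hU2', ?_⟩
  intro α hα1 hα2
  set L := Real.log T with hLdef
  have hKd : 0 ≤ K / δ := by positivity
  have hL1 : K ≤ δ * L := by
    have : K / δ ≤ L := by linarith
    rw [div_le_iff₀ hδ] at this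
    linarith
  have hL0 : 0 < L := by linarith
  have hαL : L ≤ α * L := by nlinarith
  have h1 := hT1 T (α * L) hTT1 (by nlinarith) (by nlinarith)
  have h2 := hu (α * L) (by linarith) (by nlinarith)
  have hmax : max 1 (α * L / L) = α := by
    rw [mul_div_cancel_right₀ _ hL0.ne']
    exact max_eq_right hα1
  rw [hmax] at h1
  set Z := H370.Zf riemannZeta U1 U2 with hZ
  set mz' : ℂ → ℝ := fun s => (H370.mult riemannZeta s : ℝ) with hmz
  obtain ⟨hint, hpg⟩ := pair_gauss b (α * L) hb Z mz'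
  rw [hpg, Complex.ofReal_re]
  set G : ℝ → ℝ := fun t => ‖GGb b (α * L) t Z mz'‖ ^ 2 with hG
  have hG0 : ∀ t, 0 ≤ G t := fun t => by positivity
  have hlogV2 : 2 * L ≤ T := by
    have h1 : L = 2 * Real.log (Real.sqrt T) := by
      rw [Real.log_sqrt hT0.le]; ring
    have h2 := Real.log_le_sub_one_of_pos (Real.sqrt_pos.2 hT0)
    have h3 : Real.sqrt T * Real.sqrt T = T := Real.mul_self_sqrt hT0.le
    nlinarith [sq_nonneg (Real.sqrt T - 2)]
  have h3 : ∫ t in (T + L)..(2 * T - L), G t ≤ ∫ t, G t := by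
    rw [intervalIntegral.integral_of_le (by linarith)]
    exact setIntegral_le_integral hint (Filter.Eventually.of_forall hG0)
  set g : ℝ := 3 / 2 - α - δ with hgdef
  have hg1 : 3 * δ ≤ g := by rw [hgdef]; linarith
  have hg2 : g ≤ 1 / 2 := by rw [hgdef]; linarith
  set IA := ∫ t in (T + L)..(2 * T - L), ‖AAt b (Real.exp (α * L)) t‖ ^ 2 with hIA
  have h5 : (1 / (1 + δ / 4)) * ((1 / (2 * Real.pi * b)) *
      (g * Real.sqrt (Real.pi * b) * (T * L)) - C * T) ≤ ∫ t, G t := by
    refine le_trans ?_ (h2.trans h3)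
    gcongr
  have h6 : (1 / (1 + δ / 4)) * ((g * L - K) / (2 * Real.pi)) * T ≤ sbp * ∫ t, G t := by
    calc (1 / (1 + δ / 4)) * ((g * L - K) / (2 * Real.pi)) * T
        = sbp * ((1 / (1 + δ / 4)) * ((1 / (2 * Real.pi * b)) *
        (g * Real.sqrt (Real.pi * b) * (T * L)) - C * T)) := by
          have e1 : sbp * ((1 / (1 + δ / 4)) * ((1 / (2 * Real.pi * b)) *
            (g * Real.sqrt (Real.pi * b) * (T * L)) - C * T)) =
            (1 / (1 + δ / 4)) * ((sbp * Real.sqrt (Real.pi * b)) * (1 / (2 * Real.pi * b)) *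
            (g * (T * L)) - C * sbp * T) := by ring
          rw [e1, hsb, hK]
          field_simp
      _ ≤ _ := mul_le_mul_of_nonneg_left h5 hsbp0
  refine le_trans ?_ h6
  have hX : 0 ≤ g * L - K := by nlinarith
  have hη1 : 1 - δ / 4 ≤ 1 / (1 + δ / 4) := by
    rw [le_div_iff₀ (by positivity)]
    nlinarith
  calc (3 / 2 - α - 4 * δ) * (T / (2 * Real.pi) * L)
      = (T / (2 * Real.pi)) * ((g - 3 * δ) * L) := by rw [hgdef]; ring
    _ ≤ (T / (2 * Real.pi)) * ((1 - δ / 4) * (g * L - K)) := by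
        apply mul_le_mul_of_nonneg_left _ (by positivity)
        have h8 : δ / 4 * (g * L - K) ≤ δ / 4 * (1 / 2 * L) := by
          apply mul_le_mul_of_nonneg_left _ (by positivity)
          have h10 : g * L ≤ 1 / 2 * L := by
            apply mul_le_mul_of_nonneg_right hg2; linarith
          linarith
        have h9 : 0 ≤ δ * L := by positivity
        linarith
    _ = (1 - δ / 4) * ((g * L - K) / (2 * Real.pi)) * T := by ring
    _ ≤ (1 / (1 + δ / 4)) * ((g * L - K) / (2 * Real.pi)) * T := by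
        have : 0 ≤ (g * L - K) / (2 * Real.pi) := by positivity
        gcongr

end Pool.Agent.W177.AHP1
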