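import Pool.Agent.W202.AH.Stm

/-!
AHP-5: from one window `[t, t + T / q]` at the scale `log T` to the first `N` indices and any
normalisation.
-/

set_option autoImplicit false

open Complex Filter Topology Set MeasureTheory

namespace Pool.Agent.W177.AHP5

open H177.Lat
open SG (ord NZ)
open W202.AH

lemma ee_lip (x y : ℝ) : ‖ee x - ee y‖ ≤ 2 * Real.pi * |x - y| := by
  have hpi := Real.pi_pos
  have h1 : ee x - ee y = ee y * (Complex.exp (I * ((2 * Real.pi * (x - y) : ℝ) : ℂ)) - 1) := by
    have h2 : ee x = ee y * Complex.exp (I * ((2 * Real.pi * (x - y) : ℝ) : ℂ)) := by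
      unfold ee
      rw [← Complex.exp_add]
      congr 1
      push_cast
      ring
    rw [h2]; ring
  rw [h1, norm_mul, ee_norm, one_mul]
  refine (Real.norm_exp_I_mul_ofReal_sub_one_le).trans ?_
  rw [Real.norm_eq_abs, abs_mul, abs_of_pos (by positivity : (0 : ℝ) < 2 * Real.pi)]

lemma gap0 {T : ℝ} (hT : 100 ≤ T) {i j : ℕ} (hi : 1 ≤ i) (hij : i ≤ j) : yy T i ≤ yy T j := by
  have hpi := Real.pi_pos
  have hLpos : 0 < Real.log T := Real.log_pos (by linarith)
  have h2 := SG.ord_mono hi hij
  unfold yy
  gcongr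

/-- sum of gaps of length `D` -/
lemma sum_long (y : ℕ → ℝ) (a b D : ℕ) (hy : ∀ i j : ℕ, a + 1 ≤ i → i ≤ j → y i ≤ y j)
    (S : Finset ℕ) (hS : ∀ n ∈ S, a + 1 ≤ n ∧ n + D ≤ b) (hab : a + 1 ≤ b) :
    ∑ n ∈ S, (y (n + D) - y n) ≤ D * (y b - y (a + 1)) := by
  have h1 : ∀ n, y (n + D) - y n = ∑ k ∈ Finset.range D, (y (n + k + 1) - y (n + k)) := by
    intro n
    have := Finset.sum_range_sub (fun k => y (n + k)) D
    simp only [add_zero] at this
    rw [← this]
    rfl
  simp_rw [h1]
  rw [Finset.sum_comm]
  have h2 : ∀ k ∈ Finset.range D, ∑ n ∈ S, (y (n + k + 1) - y (n + k)) ≤ y b - y (a + 1) := by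
    intro k hk
    rw [Finset.mem_range] at hk
    have h3 : ∑ n ∈ S, (y (n + k + 1) - y (n + k)) =
        ∑ m ∈ S.image (fun n => n + k), (y (m + 1) - y m) := by
      rw [Finset.sum_image]
      intro x _ z _ h
      simpa using h
    rw [h3, ← sum_gaps a b y hab]
    apply Finset.sum_le_sum_of_subset_of_nonneg
    · intro m hm
      rw [Finset.mem_image] at hm
      obtain ⟨n, hn, rfl⟩ := hm
      have := hS n hn
      rw [Finset.mem_Ico]
      omega
    · intro m hm _
      rw [Finset.mem_Ico] at hm
      have := hy m (m + 1) hm.1 (Nat.le_succ m)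
      linarith
  refine (Finset.sum_le_sum h2).trans ?_
  rw [Finset.sum_const, Finset.card_range, nsmul_eq_mul]

/-- transfer of goodness -/
lemma good_transfer (κ : ℝ) (L B : ℕ) (hL : 1 ≤ L) (θ : ℝ) (hθ : 0 < θ) (y w : ℕ → ℝ)
    (n : ℕ) (η : ℝ) (hκ : 0 < κ)
    (hd : ∀ j : ℕ, j ≤ B + L → |(w (n + j) - w n) - (y (n + j) - y n)| ≤ η)
    (hη : L * (2 * Real.pi * (θ * η)) ≤ κ / 2)
    (hg : Good (κ / 2) L B (fun j => ee (θ * w j)) n) :
    Good κ L B (fun j => ee (θ * y j)) n := by
  obtain ⟨c, hc⟩ := hg
  have hpi := Real.pi_pos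
  set ω := ee (θ * (y n - w n)) with hω
  refine ⟨ω * c, fun m l hm hl => ?_⟩
  have h1 := hc m l hm hl
  have hLr : (1 : ℝ) ≤ Real.sqrt L := by
    rw [Real.one_le_sqrt]
    exact_mod_cast hL
  have h2 : ∑ i ∈ Finset.range l, ee (θ * y (n + m + i)) - l * (ω * c) =
      ∑ i ∈ Finset.range l, (ee (θ * y (n + m + i)) - ω * ee (θ * w (n + m + i))) +
      ω * (∑ i ∈ Finset.range l, ee (θ * w (n + m + i)) - l * c) := by
    rw [Finset.sum_sub_distrib, ← Finset.mul_sum]
    ring
  have h3 : ∀ i ∈ Finset.range l, ‖ee (θ * y (n + m + i)) - ω * ee (θ * w (n + m + i))‖ ≤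
      2 * Real.pi * (θ * η) := by
    intro i hi
    rw [Finset.mem_range] at hi
    rw [hω, ← ee_add]
    refine (ee_lip _ _).trans ?_
    apply mul_le_mul_of_nonneg_left _ (by positivity)
    have h4 := hd (m + i) (by omega)
    have h5 : θ * y (n + m + i) - (θ * (y n - w n) + θ * w (n + m + i)) =
        -(θ * ((w (n + (m + i)) - w n) - (y (n + (m + i)) - y n))) := by
      rw [add_assoc n m i]
      ring
    rw [h5, abs_neg, abs_mul, abs_of_pos hθ]
    exact mul_le_mul_of_nonneg_left h4 hθ.le
  simp only
  rw [h2]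
  refine (norm_add_le _ _).trans ?_
  have h6 : ‖∑ i ∈ Finset.range l, (ee (θ * y (n + m + i)) - ω * ee (θ * w (n + m + i)))‖ ≤
      κ / 2 := by
    refine (norm_sum_le _ _).trans ((Finset.sum_le_sum h3).trans ?_)
    rw [Finset.sum_const, Finset.card_range, nsmul_eq_mul]
    have hη0 : 0 ≤ η := (abs_nonneg _).trans (hd 0 (by omega))
    have hlL : (l : ℝ) ≤ L := by exact_mod_cast hl
    refine le_trans ?_ hη
    exact mul_le_mul_of_nonneg_right hlL (by positivity)
  have h7 : ‖ω * (∑ i ∈ Finset.range l, ee (θ * w (n + m + i)) - l * c)‖ ≤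
      κ / 2 * Real.sqrt L := by
    rw [norm_mul, hω, ee_norm, one_mul]
    exact h1
  have h8 : κ / 2 ≤ κ / 2 * Real.sqrt L := by
    have : 0 < κ / 2 := by positivity
    nlinarith
  linarith

theorem main : W202.AH.Transfer := by
  intro θ hθ hMW w hw
  obtain ⟨κ, hκ, L0, hMW⟩ := hMW
  obtain ⟨C, T1, hC, hT1, hw⟩ := hw
  have hpi := Real.pi_pos
  have hpi3 := Real.pi_gt_three
  refine ⟨κ / 2, by positivity, max L0 1, fun L hL => ?_⟩
  obtain ⟨B, q, hq, c, T0, hc, hT0, hMW⟩ := hMW L ((le_max_left _ _).trans hL)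
  have hL1 : 1 ≤ L := (le_max_right _ _).trans hL
  refine ⟨B, ?_⟩
  set D : ℕ := B + L with hD
  have hD1 : 1 ≤ D := by omega
  have hDr : (0 : ℝ) < D := by exact_mod_cast (by omega : 0 < D)
  set U : ℝ := 4 * D / c with hU
  have hU0 : 0 < U := by positivity
  have hLr : (0 : ℝ) < L := by exact_mod_cast (by omega : 0 < L)
  obtain ⟨T2, hT2⟩ := (Real.tendsto_log_atTop.eventually_ge_atTop
    (max (L * (2 * Real.pi * (θ * (C * U))) * (2 / κ)) (4 * D / c))).exists_forall_of_atTop
  set P : ℕ → Prop := fun n => ¬ Good (κ / 2) L B (fun j => ee (θ * w j)) n with hP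
  have key : ∀ T : ℝ, max (max T0 T1) T2 ≤ T → c / 4 * (T * Real.log T) ≤
      ({n : ℕ | 1 ≤ n ∧ ord n ≤ 3 * T ∧ P n}.ncard : ℝ) := by
    intro T hT
    have hTT0 : T0 ≤ T := ((le_max_left _ _).trans (le_max_left _ _)).trans hT
    have hTT1 : T1 ≤ T := ((le_max_right _ _).trans (le_max_left _ _)).trans hT
    have hlog := hT2 T ((le_max_right _ _).trans hT)
    have hlog1 := (le_max_left _ _).trans hlog
    have hlog2 := (le_max_right _ _).trans hlog
    have hT100 : 100 ≤ T := hT0.trans hTT0
    have hTpos : 0 < T := by linarith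
    have hLpos : 0 < Real.log T := Real.log_pos (by linarith)
    obtain ⟨t, ht1, ht2, hcount⟩ := hMW T hTT0
    set a := NZ t with ha
    set b := NZ (t + T / q) with hb
    have hqr : (8 : ℝ) ≤ q := by exact_mod_cast hq
    have hTq : T / q ≤ T / 8 := by
      apply div_le_div_of_nonneg_left hTpos.le (by norm_num) hqr
    have hTq0 : 0 < T / q := by positivity
    classical
    set S0 : Finset ℕ := (Finset.Ioc a b).filter
      (fun n => ¬ Good κ L B (fun j => ee (θ * yy T j)) n) with hS0
    have hS0c : c * (T * Real.log T) ≤ (S0.card : ℝ) := by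
      have e : {n : ℕ | n ∈ Finset.Ioc a b ∧ ¬ Good κ L B (fun j => ee (θ * yy T j)) n} =
          (S0 : Set ℕ) := by
        ext n
        simp [hS0]
      rw [e, Set.ncard_coe_finset] at hcount
      exact hcount
    set S1 : Finset ℕ := S0.filter (fun n => n + D ≤ b) with hS1
    set S2 : Finset ℕ := S1.filter (fun n => yy T (n + D) - yy T n ≤ U) with hS2
    have hTL : 0 < T * Real.log T := by positivity
    -- the indices near the end
    have hc1 : (S0.card : ℝ) ≤ S1.card + D := by
      have h1 : S0.card = S1.card + (S0.filter (fun n => ¬ (n + D ≤ b))).card :=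
        (Finset.card_filter_add_card_filter_not (s := S0) (fun n => n + D ≤ b)).symm
      have h2 : (S0.filter (fun n => ¬ (n + D ≤ b))).card ≤ D := by
        have h3 : S0.filter (fun n => ¬ (n + D ≤ b)) ⊆ Finset.Ioc (b - D) b := by
          intro n hn
          rw [Finset.mem_filter, hS0, Finset.mem_filter, Finset.mem_Ioc] at hn
          rw [Finset.mem_Ioc]
          omega
        have h4 := Finset.card_le_card h3
        rw [Nat.card_Ioc] at h4
        omega
      have h5 : S0.card ≤ S1.card + D := by omega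
      exact_mod_cast h5
    have hDsmall : (D : ℝ) ≤ c / 4 * (T * Real.log T) := by
      have h1 : 4 * D / c ≤ Real.log T := hlog2
      rw [div_le_iff₀ hc] at h1
      nlinarith
    -- the long gaps
    have hc2 : (S1.card : ℝ) ≤ S2.card + c / 4 * (T * Real.log T) := by
      have h1 : (S1.card : ℝ) = S2.card +
          (S1.filter (fun n => ¬ (yy T (n + D) - yy T n ≤ U))).card := by
        exact_mod_cast (Finset.card_filter_add_card_filter_not (s := S1)
          (fun n => yy T (n + D) - yy T n ≤ U)).symm
      set S3 := S1.filter (fun n => ¬ (yy T (n + D) - yy T n ≤ U)) with hS3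
      rcases S3.eq_empty_or_nonempty with h0 | h0
      · rw [h1, h0]
        simp only [Finset.card_empty, Nat.cast_zero]
        have : 0 ≤ c / 4 * (T * Real.log T) := by positivity
        linarith
      · have hmem : ∀ n ∈ S3, a + 1 ≤ n ∧ n + D ≤ b := by
          intro n hn
          rw [hS3, Finset.mem_filter, hS1, Finset.mem_filter, hS0, Finset.mem_filter,
            Finset.mem_Ioc] at hn
          omega
        obtain ⟨n0, hn0⟩ := h0
        have hab : a + 1 ≤ b := by
          have := hmem n0 hn0
          omega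
        have h2 := sum_long (yy T) a b D
          (fun i j hi hij => gap0 hT100 (by omega : 1 ≤ i) hij) S3 hmem hab
        have h3 : (S3.card : ℝ) * U ≤ ∑ n ∈ S3, (yy T (n + D) - yy T n) := by
          rw [← nsmul_eq_mul, ← Finset.sum_const]
          refine Finset.sum_le_sum fun n hn => ?_
          have := (Finset.mem_filter.1 hn).2
          push Not at this
          exact this.le
        have h4 : yy T b - yy T (a + 1) ≤ T / q * (Real.log T / (2 * Real.pi)) := by
          have h5 : ord b ≤ t + T / q := (SG.ord_le_iff (by omega) _).mpr le_rfl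
          have h6 : t < ord (a + 1) := by
            by_contra hcon2
            push Not at hcon2
            have := (SG.ord_le_iff (by omega : 1 ≤ a + 1) t).mp hcon2
            omega
          have h7 : yy T b - yy T (a + 1) = (ord b - ord (a + 1)) * (Real.log T / (2 * Real.pi)) := by
            simp only [yy]; ring
          rw [h7]
          apply mul_le_mul_of_nonneg_right _ (by positivity)
          linarith
        have h8 : (S3.card : ℝ) * U ≤ D * (T * Real.log T) := by
          refine h3.trans (h2.trans ?_)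
          apply mul_le_mul_of_nonneg_left _ hDr.le
          refine h4.trans ?_
          have h9 : T / q ≤ T := by linarith
          have h10 : Real.log T / (2 * Real.pi) ≤ Real.log T :=
            div_le_self hLpos.le (by linarith)
          exact mul_le_mul h9 h10 (by positivity) hTpos.le
        have h11 : (S3.card : ℝ) ≤ c / 4 * (T * Real.log T) := by
          rw [← le_div_iff₀ hU0] at h8
          refine h8.trans (le_of_eq ?_)
          rw [hU]
          field_simp
        linarith
    have hS2c : c / 4 * (T * Real.log T) ≤ (S2.card : ℝ) := by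
      have : c * (T * Real.log T) = c / 4 * (T * Real.log T) + c / 4 * (T * Real.log T) +
        c / 2 * (T * Real.log T) := by ring
      have h0 : c / 4 * (T * Real.log T) ≤ c / 2 * (T * Real.log T) := by
        apply mul_le_mul_of_nonneg_right _ hTL.le
        linarith
      linarith
    -- transfer
    have hsub : (S2 : Set ℕ) ⊆ {n : ℕ | 1 ≤ n ∧ ord n ≤ 3 * T ∧ P n} := by
      intro n hn
      rw [Finset.mem_coe, hS2, Finset.mem_filter, hS1, Finset.mem_filter, hS0, Finset.mem_filter,
        Finset.mem_Ioc] at hn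
      obtain ⟨⟨⟨⟨hn1, hn2⟩, hn3⟩, hn4⟩, hn5⟩ := hn
      have hn0 : 1 ≤ n := by omega
      have q1 : t < ord n := by
        by_contra hcon2
        push Not at hcon2
        have := (SG.ord_le_iff hn0 t).mp hcon2
        omega
      have q2 : ∀ j : ℕ, j ≤ D → ord (n + j) ≤ 3 * T := by
        intro j hj
        have : ord (n + j) ≤ t + T / q := (SG.ord_le_iff (by omega) _).mpr (by omega)
        linarith
      refine ⟨hn0, by simpa using q2 0 (Nat.zero_le _), fun hgood => hn3 ?_⟩
      have hstep : ∀ j : ℕ, j ≤ D → |(w (n + j) - w n) - (yy T (n + j) - yy T n)| ≤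
          C / Real.log T * (yy T (n + j) - yy T n) := by
        intro j
        induction j with
        | zero => intro _; simp
        | succ j ih =>
          intro hj
          have h1 := ih (by omega)
          have h2 := hw T hTT1 (n + j) (by omega)
            (by have := SG.ord_mono hn0 (by omega : n ≤ n + j)
                linarith) (q2 (j + 1) hj)
          have h3 : (w (n + (j + 1)) - w n) - (yy T (n + (j + 1)) - yy T n) =
              ((w (n + j) - w n) - (yy T (n + j) - yy T n)) +
              ((w (n + j + 1) - w (n + j)) - (yy T (n + j + 1) - yy T (n + j))) := by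
            rw [← add_assoc]; ring
          rw [h3]
          refine (abs_add_le _ _).trans ((add_le_add h1 h2).trans (le_of_eq ?_))
          rw [← add_assoc]; ring
      refine good_transfer κ L B hL1 θ hθ (yy T) w n (C / Real.log T * U) hκ ?_ ?_ hgood
      · intro j hj
        refine (hstep j hj).trans ?_
        apply mul_le_mul_of_nonneg_left _ (by positivity)
        have := gap0 hT100 (by omega : 1 ≤ n + j) (by omega : n + j ≤ n + D)
        linarith
      · have h1 : L * (2 * Real.pi * (θ * (C * U))) * (2 / κ) ≤ Real.log T := hlog1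
        rw [mul_div_assoc', div_le_iff₀ hκ] at h1
        have h2 : (L : ℝ) * (2 * Real.pi * (θ * (C / Real.log T * U))) =
            (L * (2 * Real.pi * (θ * (C * U)))) / Real.log T := by
          field_simp
        rw [h2, div_le_iff₀ hLpos]
        linarith
    have hfin : {n : ℕ | 1 ≤ n ∧ ord n ≤ 3 * T ∧ P n}.Finite := by
      refine (Set.finite_Iic (NZ (3 * T))).subset ?_
      rintro n ⟨g1, g2, g3⟩
      exact (SG.ord_le_iff g1 _).mp g2
    have hle := Set.ncard_le_ncard hsub hfin
    rw [Set.ncard_coe_finset] at hle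
    have hle' : (S2.card : ℝ) ≤ ({n : ℕ | 1 ≤ n ∧ ord n ≤ 3 * T ∧ P n}.ncard : ℝ) := by
      exact_mod_cast hle
    exact hS2c.trans hle'
  obtain ⟨ε', hε', hεc, hN⟩ := blocks P (c / 4) (max (max T0 T1) T2) (by positivity) key
  exact ⟨ε', hε', hN⟩

end Pool.Agent.W177.AHP5
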