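import Pool.Agent.W202.AH.Stm

/-!
AHP-6: the two normalisations of the ordinates.
-/

set_option autoImplicit false

open Complex Filter Topology Set MeasureTheory

namespace Pool.Agent.W177.AHP6

open H177.Lat H370.A3
open SG (ord NZ)

lemma gap_facts {T : ℝ} (hT : 100 ≤ T) {j : ℕ} (hj : 1 ≤ j) :
    0 ≤ yy T (j + 1) - yy T j := by
  have hpi := Real.pi_pos
  have hLpos : 0 < Real.log T := Real.log_pos (by linarith)
  have h2 := SG.ord_mono hj (Nat.le_succ j)
  have h3 : yy T (j + 1) - yy T j = (ord (j + 1) - ord j) * (Real.log T / (2 * Real.pi)) := by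
    simp only [yy]; ring
  rw [h3]
  exact mul_nonneg (by linarith) (by positivity)

theorem first : W202.AH.Nrm (fun j => ord j * Real.log (ord j) / (2 * Real.pi)) := by
  refine ⟨3, 100, by norm_num, le_rfl, fun T hT j hj h1 h2 => ?_⟩
  have hpi := Real.pi_pos
  have hTpos : 0 < T := by linarith
  have hLpos : 0 < Real.log T := Real.log_pos (by linarith)
  have q3' : ord j ≤ ord (j + 1) := SG.ord_mono hj (Nat.le_succ j)
  have hx0 : 0 < ord j := by linarith
  have hu0 := gap_facts hT hj
  set u := yy T (j + 1) - yy T j with hu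
  have hu1 : u = (ord (j + 1) - ord j) * Real.log T / (2 * Real.pi) := by
    simp only [hu, yy]; ring
  have hlogx : Real.log T ≤ Real.log (ord j) := Real.log_le_log hTpos h1
  have hlogy : Real.log (ord (j + 1)) + 1 ≤ Real.log T + 3 := by
    have h6 : Real.log (ord (j + 1)) ≤ Real.log (3 * T) :=
      Real.log_le_log (hx0.trans_le q3') h2
    rw [Real.log_mul (by norm_num) hTpos.ne'] at h6
    have h7 : Real.log 3 ≤ 2 := by
      have := Real.log_le_sub_one_of_pos (show (0 : ℝ) < 3 by norm_num)
      linarith
    linarith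
  have hd0 : 0 ≤ ord (j + 1) - ord j := by linarith
  have e : ord (j + 1) * Real.log (ord (j + 1)) / (2 * Real.pi) -
      ord j * Real.log (ord j) / (2 * Real.pi) = del j := by
    unfold del; ring
  simp only
  rw [e]
  have hlow : u ≤ del j := by
    rw [hu1]
    unfold del
    apply div_le_div_of_nonneg_right _ (by positivity)
    refine le_trans ?_ (xlog_low hx0 q3')
    exact mul_le_mul_of_nonneg_left (by linarith) hd0
  have hup : del j ≤ u + 3 / Real.log T * u := by
    have h5 : del j ≤ (ord (j + 1) - ord j) * (Real.log T + 3) / (2 * Real.pi) := by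
      unfold del
      apply div_le_div_of_nonneg_right _ (by positivity)
      exact (xlog_aux hx0 q3').trans (mul_le_mul_of_nonneg_left hlogy hd0)
    have h6 : (ord (j + 1) - ord j) * (Real.log T + 3) / (2 * Real.pi) =
        u + 3 / Real.log T * u := by
      rw [hu1]
      field_simp
    rw [h6] at h5
    exact h5
  rw [abs_of_nonneg (by linarith)]
  linarith

theorem second : W202.AH.Nrm (fun j => ∑ i ∈ Finset.range j, del2 i) := by
  refine ⟨3, 100, by norm_num, le_rfl, fun T hT j hj h1 h2 => ?_⟩
  have hpi := Real.pi_pos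
  have hpi3 := Real.pi_gt_three
  have hpi4 := Real.pi_lt_d2
  have hTpos : 0 < T := by linarith
  have hLpos : 0 < Real.log T := Real.log_pos (by linarith)
  have q3' : ord j ≤ ord (j + 1) := SG.ord_mono hj (Nat.le_succ j)
  have hx0 : 0 < ord j := by linarith
  have hu0 := gap_facts hT hj
  set u := yy T (j + 1) - yy T j with hu
  have hu1 : u = (ord (j + 1) - ord j) * Real.log T / (2 * Real.pi) := by
    simp only [hu, yy]; ring
  have hlogx : Real.log T ≤ Real.log (ord j) := Real.log_le_log hTpos h1
  have hlogy : Real.log (ord j) ≤ Real.log T + 2 := by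
    have h6 : Real.log (ord j) ≤ Real.log (3 * T) :=
      Real.log_le_log hx0 (q3'.trans h2)
    rw [Real.log_mul (by norm_num) hTpos.ne'] at h6
    have h7 : Real.log 3 ≤ 2 := by
      have := Real.log_le_sub_one_of_pos (show (0 : ℝ) < 3 by norm_num)
      linarith
    linarith
  have hl2 : 0 ≤ Real.log (2 * Real.pi) := Real.log_nonneg (by linarith)
  have hl3 : Real.log (2 * Real.pi) ≤ 2 := by
    rw [Real.log_le_iff_le_exp (by positivity)]
    have h8 : Real.exp 2 = Real.exp 1 * Real.exp 1 := by
      rw [← Real.exp_add]; norm_num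
    have h9 := Real.exp_one_gt_d9
    rw [h8]
    nlinarith
  simp only
  rw [Finset.sum_range_succ, add_sub_cancel_left]
  have hd0 : 0 ≤ ord (j + 1) - ord j := by linarith
  have hdel : del2 j - u = (Real.log (ord j) - Real.log (2 * Real.pi) - Real.log T) *
      ((ord (j + 1) - ord j) / (2 * Real.pi)) := by
    unfold del2
    rw [Real.log_div hx0.ne' (by positivity), hu1]
    ring
  have hu2 : 2 / Real.log T * u = 2 * ((ord (j + 1) - ord j) / (2 * Real.pi)) := by
    rw [hu1]; field_simp
  have h10 : |del2 j - u| ≤ 2 / Real.log T * u := by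
    rw [hdel, abs_mul, hu2, abs_of_nonneg (div_nonneg hd0 (by positivity))]
    apply mul_le_mul_of_nonneg_right _ (div_nonneg hd0 (by positivity))
    rw [abs_le]
    constructor <;> linarith
  refine h10.trans ?_
  apply mul_le_mul_of_nonneg_right _ hu0
  apply div_le_div_of_nonneg_right (by norm_num) hLpos.le

theorem main : W202.AH.Norms := ⟨first, second⟩

end Pool.Agent.W177.AHP6
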