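import Pool.Agent.W842.BV.Stms2

set_option autoImplicit false

namespace Pool.Agent.W177.BV

open Finset Pool.Agent.W842.BV

/-- members of the sphere have small coordinates -/
theorem sph_abs {D r R : ℕ} (hr : r ≤ R ^ 2) {a : Fin D → ℤ} (ha : a ∈ sph D r) (h : Fin D) :
    |a h| ≤ (R : ℤ) := by
  have h1 : ∑ i, a i ^ 2 = (r : ℤ) := (Finset.mem_filter.mp ha).2
  have h2 : a h ^ 2 ≤ ∑ i, a i ^ 2 :=
    Finset.single_le_sum (f := fun i => a i ^ 2) (fun i _ => sq_nonneg (a i)) (Finset.mem_univ h)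
  have h3 : (r : ℤ) ≤ (R : ℤ) ^ 2 := by exact_mod_cast hr
  have h4 : a h ^ 2 ≤ (R : ℤ) ^ 2 := by linarith
  exact abs_le_of_sq_le_sq h4 (by positivity)

theorem sph_sum {D r : ℕ} {a : Fin D → ℤ} (ha : a ∈ sph D r) : ∑ i, a i ^ 2 = (r : ℤ) :=
  (Finset.mem_filter.mp ha).2

theorem mem_sph {D r : ℕ} {a : Fin D → ℤ} (ha : ∑ i, a i ^ 2 = (r : ℤ)) : a ∈ sph D r := by
  refine Finset.mem_filter.mpr ⟨?_, ha⟩
  rw [Fintype.mem_piFinset]
  intro i
  rw [Finset.mem_Icc]
  have h2 : a i ^ 2 ≤ ∑ i, a i ^ 2 :=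
    Finset.single_le_sum (f := fun i => a i ^ 2) (fun i _ => sq_nonneg (a i)) (Finset.mem_univ i)
  have h3 : a i ≤ a i ^ 2 := by nlinarith [Int.le_self_sq (a i)]
  have h4 : - a i ≤ a i ^ 2 := by
    have := Int.le_self_sq (- a i)
    nlinarith
  constructor <;> linarith

/-- an integer of small absolute value that is zero modulo `M` is zero -/
theorem int_zero {M : ℕ} (z : ℤ) (hz : ((z : ℤ) : ZMod M) = 0) (hb : |z| < (M : ℤ)) : z = 0 := by
  have h1 : (M : ℤ) ∣ z := (ZMod.intCast_zmod_eq_zero_iff_dvd z M).mp hz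
  exact Int.eq_zero_of_abs_lt_dvd h1 hb

theorem VLB_fintype (hV : S_VLB) (D : ℕ) (ι : Type) [Fintype ι] (a : ι → Fin D → ℤ) (j₀ : ι)
    (α : ι → ℤ) (β : ι → Fin D → ℤ)
    (h1 : ∀ i j, i ≠ j₀ → i ≠ j → α i + ∑ h, β i h * a j h = 0)
    (h2 : ∀ i, i ≠ j₀ → α i + ∑ h, β i h * a i h ≠ 0) : Fintype.card ι ≤ D + 1 := by
  classical
  let e := Fintype.equivFin ι
  refine hV D (Fintype.card ι) (fun i => a (e.symm i)) (e j₀) (fun i => α (e.symm i))
    (fun i => β (e.symm i)) ?_ ?_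
  · intro i j hi hij
    refine h1 _ _ ?_ ?_
    · intro h
      exact hi (by rw [← h, Equiv.apply_symm_apply])
    · intro h
      exact hij (e.symm.injective h)
  · intro i hi
    refine h2 _ ?_
    intro h
    exact hi (by rw [← h, Equiv.apply_symm_apply])

/-- the choice of `j₀` -/
theorem exists_j0 {α β : Type} [DecidableEq α] [DecidableEq β] (A : Finset α) (B : Finset β)
    (hA : A.Nonempty) (hB : B.Nonempty) (hAB : ¬ (A.card = 1 ∧ B.card = 1)) :
    ∃ j₀ : A ⊕ B, ∀ i : A ⊕ B, i ≠ j₀ →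
      (match i with
        | Sum.inl u => (A.erase u.1).Nonempty
        | Sum.inr y => (B.erase y.1).Nonempty) := by
  by_cases h1 : A.card = 1
  · obtain ⟨u, hu⟩ := hA
    refine ⟨Sum.inl ⟨u, hu⟩, ?_⟩
    intro i hi
    rcases i with ⟨x, hx⟩ | ⟨y, hy⟩
    · exfalso
      apply hi
      have := Finset.card_le_one.mp h1.le x hx u hu
      subst this
      rfl
    · have hB1 : B.card ≠ 1 := fun h => hAB ⟨h1, h⟩
      have hB2 : 0 < B.card := hB.card_pos
      change (B.erase y).Nonempty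
      rw [← Finset.card_pos, Finset.card_erase_of_mem hy]
      omega
  · by_cases h3 : B.card = 1
    · obtain ⟨u, hu⟩ := hB
      refine ⟨Sum.inr ⟨u, hu⟩, ?_⟩
      intro i hi
      rcases i with ⟨x, hx⟩ | ⟨y, hy⟩
      · have hA2 : 0 < A.card := hA.card_pos
        change (A.erase x).Nonempty
        rw [← Finset.card_pos, Finset.card_erase_of_mem hx]
        omega
      · exfalso
        apply hi
        have := Finset.card_le_one.mp h3.le y hy u hu
        subst this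
        rfl
    · obtain ⟨u, hu⟩ := hA
      refine ⟨Sum.inl ⟨u, hu⟩, ?_⟩
      intro i hi
      have hA2 : 0 < A.card := Finset.card_pos.mpr ⟨u, hu⟩
      have hB2 : 0 < B.card := hB.card_pos
      rcases i with ⟨x, hx⟩ | ⟨y, hy⟩
      · change (A.erase x).Nonempty
        rw [← Finset.card_pos, Finset.card_erase_of_mem hx]
        omega
      · change (B.erase y).Nonempty
        rw [← Finset.card_pos, Finset.card_erase_of_mem hy]
        omega

/-- first part: adjacency of `u` and `w = w₀ + γ` -/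
theorem UW_iff {D N r R : ℕ} [NeZero N] (hr : r ≤ R ^ 2) (hN : 4 * R < N)
    (u w₀ w : Fin D → ZMod N) (a γ : Fin D → ℤ) (ha : a ∈ sph D r)
    (h0 : w₀ = fun i => u i + (a i : ZMod N)) (hγ : ∀ h, |γ h| ≤ 2 * (R : ℤ))
    (hw : ∀ h, w h = w₀ h + (γ h : ZMod N)) :
    UW r u w ↔ ∑ h, γ h ^ 2 + ∑ h, γ h * (2 * a h) = 0 := by
  have hsum : ∑ h, (γ h + a h) ^ 2 = ∑ h, γ h ^ 2 + ∑ h, γ h * (2 * a h) + (r : ℤ) := by
    rw [← sph_sum ha, ← Finset.sum_add_distrib, ← Finset.sum_add_distrib]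
    refine Finset.sum_congr rfl fun h _ => ?_
    ring
  constructor
  · rintro ⟨b, hb, hwb⟩
    have hbe : b = fun h => γ h + a h := by
      funext h
      have e1 : w h = u h + (b h : ZMod N) := congrFun hwb h
      have e2 : w₀ h = u h + (a h : ZMod N) := congrFun h0 h
      have e3 : ((b h - γ h - a h : ℤ) : ZMod N) = 0 := by
        push_cast
        have e4 := hw h
        rw [e1, e2] at e4
        linear_combination e4
      have b1 := abs_le.mp (sph_abs hr hb h)
      have b2 := abs_le.mp (sph_abs hr ha h)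
      have b3 := abs_le.mp (hγ h)
      have hN' : 4 * (R : ℤ) < (N : ℤ) := by exact_mod_cast hN
      have e5 := int_zero (b h - γ h - a h) e3 (abs_lt.mpr ⟨by linarith [b1.1, b1.2, b2.1, b2.2,
        b3.1, b3.2], by linarith [b1.1, b1.2, b2.1, b2.2, b3.1, b3.2]⟩)
      linarith
    have := sph_sum hb
    rw [hbe] at this
    rw [hsum] at this
    linarith
  · intro hz
    refine ⟨fun h => γ h + a h, mem_sph (by rw [hsum, hz]; ring), ?_⟩
    funext h
    have e2 : w₀ h = u h + (a h : ZMod N) := congrFun h0 h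
    rw [hw h, e2]
    push_cast
    ring

/-- third part: adjacency of `y` and `w = w₀ + γ` -/
theorem WY_iff (hD : S_DBL) {D N r R : ℕ} [NeZero N] (hr : r ≤ R ^ 2) (hN : 4 * R < N)
    (y : Fin D → ZMod (2 * N)) (w₀ w : Fin D → ZMod N) (a γ : Fin D → ℤ) (ha : a ∈ sph D r)
    (h0 : y = fun i => dbl (w₀ i) - (a i : ZMod (2 * N))) (hγ : ∀ h, |γ h| ≤ 2 * (R : ℤ))
    (hw : ∀ h, w h = w₀ h + (γ h : ZMod N)) :
    WY r w y ↔ ∑ h, γ h ^ 2 + ∑ h, γ h * a h = 0 := by
  have hdbl : ∀ h, dbl (w h) = dbl (w₀ h) + 2 * (γ h : ZMod (2 * N)) := by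
    intro h
    rw [hw h]
    exact hD.1 N (w₀ h) (γ h)
  have hsum : ∑ h, (2 * γ h + a h) ^ 2 = 4 * (∑ h, γ h ^ 2 + ∑ h, γ h * a h) + (r : ℤ) := by
    rw [← sph_sum ha, ← Finset.sum_add_distrib, Finset.mul_sum, ← Finset.sum_add_distrib]
    refine Finset.sum_congr rfl fun h _ => ?_
    ring
  constructor
  · rintro ⟨b, hb, hyb⟩
    have hbe : b = fun h => 2 * γ h + a h := by
      funext h
      have e1 : y h = dbl (w h) - (b h : ZMod (2 * N)) := congrFun hyb h
      have e2 : y h = dbl (w₀ h) - (a h : ZMod (2 * N)) := congrFun h0 h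
      have e3 : ((b h - 2 * γ h - a h : ℤ) : ZMod (2 * N)) = 0 := by
        push_cast
        rw [hdbl h, e2] at e1
        linear_combination e1
      have b1 := abs_le.mp (sph_abs hr hb h)
      have b2 := abs_le.mp (sph_abs hr ha h)
      have b3 := abs_le.mp (hγ h)
      have hN' : 4 * (R : ℤ) < (N : ℤ) := by exact_mod_cast hN
      have hR0 : (0 : ℤ) ≤ (R : ℤ) := by positivity
      have e5 := int_zero (b h - 2 * γ h - a h) e3 (abs_lt.mpr ⟨by
        push_cast
        linarith [b1.1, b1.2, b2.1, b2.2, b3.1, b3.2], by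
        push_cast
        linarith [b1.1, b1.2, b2.1, b2.2, b3.1, b3.2]⟩)
      linarith
    have := sph_sum hb
    rw [hbe] at this
    rw [hsum] at this
    linarith
  · intro hz
    refine ⟨fun h => 2 * γ h + a h, mem_sph (by rw [hsum, hz]; ring), ?_⟩
    funext h
    have e2 : y h = dbl (w₀ h) - (a h : ZMod (2 * N)) := congrFun h0 h
    rw [hdbl h, e2]
    push_cast
    ring

theorem t_VC13 : S_VC13 := by
  intro hD hV D N r R _ hD1 hr hN S₁ S₃ hS₁ hS₃ H
  classical
  by_cases hc : S₁.card = 1 ∧ S₃.card = 1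
  · omega
  obtain ⟨j₀, hj₀⟩ := exists_j0 S₁ S₃ hS₁ hS₃ hc
  obtain ⟨w₀, hw1, hw3⟩ := H S₁ (Finset.Subset.refl _) S₃ (Finset.Subset.refl _) hS₁ hS₃
  have hA1 : ∀ u : S₁, ∃ a ∈ sph D r, w₀ = fun i => u.1 i + (a i : ZMod N) :=
    fun u => (hw1 u.1 u.2).mp u.2
  have hA3 : ∀ y : S₃, ∃ a ∈ sph D r, y.1 = fun i => dbl (w₀ i) - (a i : ZMod (2 * N)) :=
    fun y => (hw3 y.1 y.2).mp y.2
  choose a1 ha1 hwa1 using hA1
  choose a3 ha3 hwa3 using hA3
  let T1 : S₁ ⊕ S₃ → Finset (Fin D → ZMod N) := fun i =>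
    Sum.elim (fun u : S₁ => S₁.erase u.1) (fun _ => S₁) i
  let T3 : S₁ ⊕ S₃ → Finset (Fin D → ZMod (2 * N)) := fun i =>
    Sum.elim (fun _ => S₃) (fun y : S₃ => S₃.erase y.1) i
  let A : S₁ ⊕ S₃ → Fin D → ℤ := fun i =>
    Sum.elim (fun u : S₁ => fun h => 2 * a1 u h) (fun y : S₃ => a3 y) i
  have key : ∀ i : S₁ ⊕ S₃, ∃ γ : Fin D → ℤ, i ≠ j₀ →
      ∀ j : S₁ ⊕ S₃, i ≠ j ↔ ∑ h, γ h ^ 2 + ∑ h, γ h * A j h = 0 := by
    intro i
    by_cases hi : i = j₀
    · exact ⟨0, fun h => absurd hi h⟩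
    have hT1s : T1 i ⊆ S₁ := by
      rcases i with u | y
      · exact Finset.erase_subset _ _
      · exact Finset.Subset.refl _
    have hT3s : T3 i ⊆ S₃ := by
      rcases i with u | y
      · exact Finset.Subset.refl _
      · exact Finset.erase_subset _ _
    have hT1n : (T1 i).Nonempty := by
      have := hj₀ i hi
      rcases i with u | y
      · exact this
      · exact hS₁
    have hT3n : (T3 i).Nonempty := by
      have := hj₀ i hi
      rcases i with u | y
      · exact hS₃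
      · exact this
    obtain ⟨w, hwu, hwy⟩ := H (T1 i) hT1s (T3 i) hT3s hT1n hT3n
    obtain ⟨k, hk⟩ := hT1n
    obtain ⟨a', ha', hwa'⟩ := (hwu k (hT1s hk)).mp hk
    let kk : S₁ := ⟨k, hT1s hk⟩
    let γ : Fin D → ℤ := fun h => a' h - a1 kk h
    have hγ : ∀ h, |γ h| ≤ 2 * (R : ℤ) := by
      intro h
      have b1 := abs_le.mp (sph_abs hr ha' h)
      have b2 := abs_le.mp (sph_abs hr (ha1 kk) h)
      change |a' h - a1 kk h| ≤ 2 * (R : ℤ)
      rw [abs_le]
      constructor <;> linarith [b1.1, b1.2, b2.1, b2.2]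
    have hww : ∀ h, w h = w₀ h + (γ h : ZMod N) := by
      intro h
      have e1 : w h = k h + (a' h : ZMod N) := congrFun hwa' h
      have e2 : w₀ h = k h + (a1 kk h : ZMod N) := congrFun (hwa1 kk) h
      rw [e1, e2]
      change _ = _ + ((a' h - a1 kk h : ℤ) : ZMod N)
      push_cast
      ring
    refine ⟨γ, fun _ j => ?_⟩
    rcases j with u | y
    · have h1 := UW_iff hr hN u.1 w₀ w (a1 u) γ (ha1 u) (hwa1 u) hγ hww
      have h2 := hwu u.1 u.2
      have h3 : (i ≠ Sum.inl u) ↔ u.1 ∈ T1 i := by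
        rcases i with u' | y'
        · change _ ↔ u.1 ∈ S₁.erase u'.1
          rw [Finset.mem_erase]
          constructor
          · intro h
            exact ⟨fun h' => h (by rw [Subtype.ext h']), u.2⟩
          · rintro ⟨h, _⟩ h'
            exact h (by rw [Sum.inl.inj h'])
        · change _ ↔ u.1 ∈ S₁
          exact ⟨fun _ => u.2, fun _ => by simp⟩
      rw [h3, h2, h1]
      rfl
    · have h1 := WY_iff hD hr hN y.1 w₀ w (a3 y) γ (ha3 y) (hwa3 y) hγ hww
      have h2 := hwy y.1 y.2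
      have h3 : (i ≠ Sum.inr y) ↔ y.1 ∈ T3 i := by
        rcases i with u' | y'
        · change _ ↔ y.1 ∈ S₃
          exact ⟨fun _ => y.2, fun _ => by simp⟩
        · change _ ↔ y.1 ∈ S₃.erase y'.1
          rw [Finset.mem_erase]
          constructor
          · intro h
            exact ⟨fun h' => h (by rw [Subtype.ext h']), y.2⟩
          · rintro ⟨h, _⟩ h'
            exact h (by rw [Sum.inr.inj h'])
      rw [h3, h2, h1]
      rfl
  choose γ hγ using key
  have hfin := VLB_fintype hV D (S₁ ⊕ S₃) A j₀ (fun i => ∑ h, γ i h ^ 2) γ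
    (fun i j hi hij => (hγ i hi j).mp hij)
    (fun i hi h => (hγ i hi i).mpr h rfl)
  rw [Fintype.card_sum, Fintype.card_coe, Fintype.card_coe] at hfin
  exact hfin

end Pool.Agent.W177.BV
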